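import Pool.Agent.H82.FP.Targets2

/-!
FLA: localization of the four-linear restriction estimate to balls of radius `s`.

Each point is put in a cube of side `s/3`; in each cube the functions are multiplied by a band
limited function and the estimate at scale `s` is applied. The energies are bounded by the local
orthogonality of the caps of radius `1/s`.
-/

set_option autoImplicit false

namespace Pool.Agent.H51.FP

open MeasureTheory Set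
open Pool.Agent.H83.G
open Pool.Agent.H82.FP
open scoped ENNReal NNReal RealInnerProductSpace

/-- the supports move by `1/(1000 s)` -/
theorem drift (D κ κ' σ s : ℝ) (c : E 2) (ζ₁ ζ₂ : Z 2) (hD : 1 ≤ D) (hκ : 0 ≤ κ)
    (hκ' : 0 < κ') (hκκ : κ + κ' ≤ 1 / 4) (hσ : 0 < σ) (hσ1 : σ ≤ 1 / 20)
    (hs0 : 0 < s) (hs : 1 ≤ s * (κ' * σ)) (hc : ‖c‖ ≤ 7 / 5) (h1 : 1 / 2 - κ ≤ ζ₁.1)
    (h2 : ζ₁.1 ≤ 6 + κ) (h3 : ‖ζ₁.1⁻¹ • ζ₁.2.1 - c‖ ≤ (1 + κ) * σ)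
    (h4 : |ζ₁.2.2 - ‖ζ₁.2.1‖ ^ 2 / ζ₁.1| ≤ D / s ^ 2) (h5 : ‖ζ₂‖ ≤ 1 / 1000) :
    1 / 2 - (κ + κ') ≤ (ζ₁ + s⁻¹ • ζ₂).1 ∧ (ζ₁ + s⁻¹ • ζ₂).1 ≤ 6 + (κ + κ') ∧
    ‖(ζ₁ + s⁻¹ • ζ₂).1⁻¹ • (ζ₁ + s⁻¹ • ζ₂).2.1 - c‖ ≤ (1 + (κ + κ')) * σ ∧
    |(ζ₁ + s⁻¹ • ζ₂).2.2 - ‖(ζ₁ + s⁻¹ • ζ₂).2.1‖ ^ 2 / (ζ₁ + s⁻¹ • ζ₂).1| ≤ D / s := by
  obtain ⟨a, ξ, b⟩ := ζ₁
  obtain ⟨u₀, v₀, w₀⟩ := ζ₂
  have hu₀ : |u₀| ≤ 1 / 1000 := by
    have := norm_fst_le ((u₀, v₀, w₀) : Z 2)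
    rw [Real.norm_eq_abs] at this
    exact this.trans h5
  have hv₀ : ‖v₀‖ ≤ 1 / 1000 :=
    ((norm_fst_le ((v₀, w₀) : E 2 × ℝ)).trans (norm_snd_le ((u₀, v₀, w₀) : Z 2))).trans h5
  have hw₀ : |w₀| ≤ 1 / 1000 := by
    have := (norm_snd_le ((v₀, w₀) : E 2 × ℝ)).trans (norm_snd_le ((u₀, v₀, w₀) : Z 2))
    rw [Real.norm_eq_abs] at this
    exact this.trans h5
  simp only [Prod.smul_mk, Prod.mk_add_mk, smul_eq_mul] at h1 h2 h3 h4 ⊢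
  set t : ℝ := s⁻¹ / 1000 with ht
  have hsi : 0 < s⁻¹ := inv_pos.2 hs0
  have ht0 : 0 < t := by positivity
  have hsκ : s⁻¹ ≤ κ' * σ := by
    rw [inv_le_iff_one_le_mul₀ hs0]
    linarith
  have htκ : t ≤ κ' * σ / 1000 := by
    rw [ht]
    linarith
  have hu : |s⁻¹ * u₀| ≤ t := by
    rw [abs_mul, abs_of_pos hsi, ht]
    nlinarith
  have hv : ‖s⁻¹ • v₀‖ ≤ t := by
    rw [norm_smul, Real.norm_eq_abs, abs_of_pos hsi, ht]
    nlinarith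
  have hw : |s⁻¹ * w₀| ≤ t := by
    rw [abs_mul, abs_of_pos hsi, ht]
    nlinarith
  generalize s⁻¹ * u₀ = u at hu ⊢
  generalize s⁻¹ • v₀ = v at hv ⊢
  generalize s⁻¹ * w₀ = w at hw ⊢
  have hκσ : κ' * σ ≤ κ' / 20 := by nlinarith
  have hκ'4 : κ' ≤ 1 / 4 := by linarith
  have htt : t ≤ κ' / 20000 := by linarith
  obtain ⟨hu1, hu2⟩ := abs_le.1 hu
  have ha : 1 / 4 ≤ a := by linarith
  have ha' : 1 / 4 ≤ a + u := by linarith
  have ha0 : 0 < a := by linarith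
  have ha'0 : 0 < a + u := by linarith
  set η₁ : E 2 := a⁻¹ • ξ with hη₁
  have hξ : ξ = a • η₁ := by
    rw [hη₁, smul_smul, mul_inv_cancel₀ ha0.ne', one_smul]
  have hη₁n : ‖η₁‖ ≤ 3 / 2 := by
    have e1 : η₁ = (η₁ - c) + c := by abel
    rw [e1]
    refine (norm_add_le _ _).trans ?_
    have : (1 + κ) * σ ≤ 5 / 4 * (1 / 20) := by
      apply mul_le_mul _ hσ1 hσ.le (by norm_num)
      linarith
    linarith
  set η₂ : E 2 := (a + u)⁻¹ • (ξ + v) with hη₂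
  have hξ' : ξ + v = (a + u) • η₂ := by
    rw [hη₂, smul_smul, mul_inv_cancel₀ ha'0.ne', one_smul]
  have hdiff : η₂ - η₁ = (a + u)⁻¹ • (v - u • η₁) := by
    have e1 : v - u • η₁ = (a + u) • (η₂ - η₁) := by
      rw [smul_sub, ← hξ', hξ, add_smul]
      abel
    rw [e1, smul_smul, inv_mul_cancel₀ ha'0.ne', one_smul]
  have hinv : (a + u)⁻¹ ≤ 4 := by
    rw [inv_le_comm₀ ha'0 (by norm_num)]
    linarith
  have hdn : ‖η₂ - η₁‖ ≤ 10 * t := by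
    rw [hdiff, norm_smul, Real.norm_eq_abs, abs_of_pos (inv_pos.2 ha'0)]
    have h7 : ‖v - u • η₁‖ ≤ t + t * (3 / 2) := by
      refine (norm_sub_le _ _).trans (add_le_add hv ?_)
      rw [norm_smul, Real.norm_eq_abs]
      exact mul_le_mul hu hη₁n (norm_nonneg _) ht0.le
    calc (a + u)⁻¹ * ‖v - u • η₁‖ ≤ 4 * (t + t * (3 / 2)) :=
          mul_le_mul hinv h7 (norm_nonneg _) (by norm_num)
      _ = 10 * t := by ring
  refine ⟨by linarith, by linarith, ?_, ?_⟩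
  · have e1 : η₂ - c = (η₁ - c) + (η₂ - η₁) := by abel
    rw [e1]
    refine (norm_add_le _ _).trans ((add_le_add h3 hdn).trans ?_)
    nlinarith
  · have e1 : ‖ξ + v‖ ^ 2 / (a + u) = (a + u) * ‖η₂‖ ^ 2 := by
      rw [hξ', norm_smul, Real.norm_eq_abs, abs_of_pos ha'0]
      field_simp
    have e2 : ‖ξ‖ ^ 2 / a = a * ‖η₁‖ ^ 2 := by
      rw [hξ, norm_smul, Real.norm_eq_abs, abs_of_pos ha0]
      field_simp
    rw [e1]
    rw [e2] at h4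
    have hd : |‖η₂‖ - ‖η₁‖| ≤ 10 * t := (abs_norm_sub_norm_le _ _).trans hdn
    have ht1 : 10 * t ≤ 1 / 100 := by linarith
    have hn1 : 0 ≤ ‖η₁‖ := norm_nonneg _
    have hn2 : 0 ≤ ‖η₂‖ := norm_nonneg _
    have hη₂n : ‖η₂‖ ≤ 8 / 5 := by
      have := (abs_le.1 hd).2
      linarith
    have hsq : |‖η₂‖ ^ 2 - ‖η₁‖ ^ 2| ≤ 10 * t * (16 / 5) := by
      have e3 : ‖η₂‖ ^ 2 - ‖η₁‖ ^ 2 = (‖η₂‖ - ‖η₁‖) * (‖η₂‖ + ‖η₁‖) := by ring
      rw [e3, abs_mul]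
      apply mul_le_mul hd _ (abs_nonneg _) (by positivity)
      rw [abs_of_nonneg (by linarith)]
      linarith
    have hdd : |(a + u) * ‖η₂‖ ^ 2 - a * ‖η₁‖ ^ 2| ≤ 203 * t := by
      have e3 : (a + u) * ‖η₂‖ ^ 2 - a * ‖η₁‖ ^ 2 = u * ‖η₂‖ ^ 2 + a * (‖η₂‖ ^ 2 - ‖η₁‖ ^ 2) := by
        ring
      rw [e3]
      refine (abs_add_le _ _).trans ?_
      rw [abs_mul, abs_mul, abs_of_pos ha0, abs_of_nonneg (by positivity : 0 ≤ ‖η₂‖ ^ 2)]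
      have h8 : |u| * ‖η₂‖ ^ 2 ≤ t * 3 := by
        apply mul_le_mul hu _ (by positivity) ht0.le
        nlinarith
      have h9 : a * |‖η₂‖ ^ 2 - ‖η₁‖ ^ 2| ≤ 25 / 4 * (10 * t * (16 / 5)) := by
        apply mul_le_mul _ hsq (abs_nonneg _) (by norm_num)
        linarith
      linarith
    have hfin : |b + w - (a + u) * ‖η₂‖ ^ 2| ≤ D / s ^ 2 + 204 * t := by
      have e3 : b + w - (a + u) * ‖η₂‖ ^ 2 = (b - a * ‖η₁‖ ^ 2) + w -
          ((a + u) * ‖η₂‖ ^ 2 - a * ‖η₁‖ ^ 2) := by ring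
      rw [e3]
      refine (abs_sub _ _).trans ?_
      refine (add_le_add (abs_add_le _ _) le_rfl).trans ?_
      linarith
    refine hfin.trans ?_
    have hs2 : 2 ≤ s := by
      by_contra hneg
      have : s * (κ' * σ) ≤ 2 * (1 / 80) := by
        apply mul_le_mul (not_le.1 hneg).le _ (by positivity) (by norm_num)
        linarith
      linarith
    have e4 : D / s ^ 2 ≤ D / s / 2 := by
      rw [div_div]
      apply div_le_div_of_nonneg_left (by linarith) (by positivity)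
      nlinarith
    have e5 : 204 * t ≤ D / s / 2 := by
      rw [ht, div_eq_mul_inv D s]
      nlinarith
    linarith

/-! ### weights -/

theorem wt_pos (N : ℕ) (z : Z 2) : 0 < wt N z := by
  unfold wt
  positivity

theorem wt_le_one (N : ℕ) (z : Z 2) : wt N z ≤ 1 := by
  unfold wt
  exact inv_le_one_of_one_le₀ (one_le_pow₀ (by linarith [norm_nonneg z]))

theorem wt_shift (N : ℕ) (s : ℝ) (x z z' : Z 2) (h : ‖s⁻¹ • z - x‖ ≤ 1) :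
    wt N (s⁻¹ • z' - x) ≤ 2 ^ N * wt N (s⁻¹ • (z - z')) := by
  unfold wt
  have h1 : ‖s⁻¹ • (z - z')‖ ≤ 1 + ‖s⁻¹ • z' - x‖ := by
    have e1 : s⁻¹ • (z - z') = (s⁻¹ • z - x) - (s⁻¹ • z' - x) := by
      rw [smul_sub]
      abel
    rw [e1]
    exact (norm_sub_le _ _).trans (add_le_add h le_rfl)
  have h2 : (1 + ‖s⁻¹ • (z - z')‖) ^ N ≤ 2 ^ N * (1 + ‖s⁻¹ • z' - x‖) ^ N := by
    rw [← mul_pow]
    apply pow_le_pow_left₀ (by positivity)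
    linarith [norm_nonneg (s⁻¹ • z' - x)]
  have h3 : 0 < (1 + ‖s⁻¹ • (z - z')‖) ^ N := by positivity
  have h4 : 0 < (1 + ‖s⁻¹ • z' - x‖) ^ N := by positivity
  rw [inv_le_iff_one_le_mul₀ h4]
  have h5 : 1 = ((1 + ‖s⁻¹ • (z - z')‖) ^ N)⁻¹ * (1 + ‖s⁻¹ • (z - z')‖) ^ N := by
    field_simp
  calc (1 : ℝ) = ((1 + ‖s⁻¹ • (z - z')‖) ^ N)⁻¹ * (1 + ‖s⁻¹ • (z - z')‖) ^ N := h5
    _ ≤ ((1 + ‖s⁻¹ • (z - z')‖) ^ N)⁻¹ * (2 ^ N * (1 + ‖s⁻¹ • z' - x‖) ^ N) := by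
        gcongr
    _ = 2 ^ N * ((1 + ‖s⁻¹ • (z - z')‖) ^ N)⁻¹ * (1 + ‖s⁻¹ • z' - x‖) ^ N := by ring

/-! ### cubes -/

/-- the cube of side `ρ` and index `j` -/
def Qj (ρ : ℝ) (j : Zi 2) : Set (Z 2) := {z | cb ρ z = j}

theorem Qj_eq (ρ : ℝ) (hρ : 0 < ρ) (j : Zi 2) : Qj ρ j =
    Ico (ρ * j.1) (ρ * j.1 + ρ) ×ˢ
      ({y : E 2 | ∀ i, y i ∈ Ico (ρ * j.2.1 i) (ρ * j.2.1 i + ρ)} ×ˢ
        Ico (ρ * j.2.2) (ρ * j.2.2 + ρ)) := by
  have key : ∀ (x : ℝ) (n : ℤ), ⌊x / ρ⌋ = n ↔ x ∈ Ico (ρ * n) (ρ * n + ρ) := by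
    intro x n
    rw [Int.floor_eq_iff, mem_Ico, le_div_iff₀ hρ, div_lt_iff₀ hρ]
    constructor
    · rintro ⟨h1, h2⟩
      constructor <;> nlinarith
    · rintro ⟨h1, h2⟩
      constructor <;> nlinarith
  ext z
  simp only [Qj, cb, mem_ofPred_eq, mem_prod, Prod.ext_iff, funext_iff, key]

theorem meas_Qj (ρ : ℝ) (hρ : 0 < ρ) (j : Zi 2) : MeasurableSet (Qj ρ j) := by
  rw [Qj_eq ρ hρ]
  refine measurableSet_Ico.prod (MeasurableSet.prod ?_ measurableSet_Ico)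
  have : {y : E 2 | ∀ i, y i ∈ Ico (ρ * j.2.1 i) (ρ * j.2.1 i + ρ)} =
      ⋂ i : Fin 2, (fun y : E 2 => y i) ⁻¹' Ico (ρ * j.2.1 i) (ρ * j.2.1 i + ρ) := by
    ext y
    simp
  rw [this]
  refine MeasurableSet.iInter fun i => ?_
  have h : Measurable (fun y : E 2 => y i) := by fun_prop
  exact h measurableSet_Ico

theorem vol_Qj (ρ : ℝ) (hρ : 0 < ρ) (j : Zi 2) :
    volume (Qj ρ j) = ENNReal.ofReal (ρ ^ 4) := by
  rw [Qj_eq ρ hρ]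
  have hE : volume {y : E 2 | ∀ i, y i ∈ Ico (ρ * j.2.1 i) (ρ * j.2.1 i + ρ)} =
      ENNReal.ofReal (ρ ^ 2) := by
    have h1 := (PiLp.volume_preserving_ofLp (Fin 2)).measure_preimage
      (s := Set.pi univ fun i => Ico (ρ * (j.2.1 i : ℝ)) (ρ * j.2.1 i + ρ))
      (MeasurableSet.univ_pi fun i => measurableSet_Ico).nullMeasurableSet
    have h2 : (WithLp.ofLp ⁻¹' Set.pi univ fun i => Ico (ρ * (j.2.1 i : ℝ)) (ρ * j.2.1 i + ρ)) =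
        {y : E 2 | ∀ i, y i ∈ Ico (ρ * j.2.1 i) (ρ * j.2.1 i + ρ)} := by
      ext y
      simp [Set.mem_pi]
    rw [h2] at h1
    rw [h1, Real.volume_pi_Ico]
    simp only [add_sub_cancel_left, Fin.prod_univ_two]
    rw [← ENNReal.ofReal_mul hρ.le, ← pow_two]
  have e1 : (volume : Measure (Z 2)) = (volume : Measure ℝ).prod
      ((volume : Measure (E 2)).prod (volume : Measure ℝ)) := rfl
  rw [e1, Measure.prod_prod, Measure.prod_prod, hE, Real.volume_Ico, Real.volume_Ico]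
  simp only [add_sub_cancel_left]
  rw [← ENNReal.ofReal_mul (by positivity), ← ENNReal.ofReal_mul hρ.le]
  congr 1
  ring

/-! ### energy -/

theorem int_TF {G : Z 2 → ℂ} (hG : TC G) (z : Z 2) :
    Integrable (fun ζ : Z 2 => e (ph z ζ) * G ζ) := by
  have h1 : Continuous (fun ζ : Z 2 => e (ph z ζ)) := by
    unfold e ph
    fun_prop
  exact (h1.mul hG.1.continuous).integrable_of_hasCompactSupport hG.2.mul_left

theorem TF_sum' {ι : Type} (I : Finset ι) (G : ι → Z 2 → ℂ) (h : ∀ k ∈ I, TC (G k)) (z : Z 2) :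
    TF (fun ζ => ∑ k ∈ I, G k ζ) z = ∑ k ∈ I, TF (G k) z := by
  unfold TF
  simp only [Finset.mul_sum]
  exact integral_finsetSum _ fun k hk => int_TF (h k hk) z

theorem enorm_sq (a : ℂ) : ‖a‖ₑ ^ 2 = ENNReal.ofReal (‖a‖ ^ 2) := by
  rw [ENNReal.ofReal_pow (norm_nonneg _), ofReal_norm]

theorem energy (hLO : T_LO) (hPUS : T_PUS) (hCPS : T_CPS) (hPLN : T_PLN) (hSCH : T_SCH)
    (hLOA : T_LOA) (N : ℕ) (β : E 2 → ℂ) (hN : 5 ≤ N) (hβ : IsPU β) (Ξ : Z 2 → ℂ) (hΞ : TC Ξ) :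
    ∃ C : ℝ≥0, ∀ (s : ℝ) (x : Z 2) (G g : Z 2 → ℂ), 1 ≤ s → TC G → TC g →
      (∀ ζ, G ζ ≠ 0 → 1 / 4 ≤ ζ.1 ∧ ζ.1 ≤ 8 ∧ ‖ζ.1⁻¹ • ζ.2.1‖ ≤ 3 / 2) →
      (∀ z, TF g z = TF G z * TF Ξ (s⁻¹ • z - x)) →
      ENNReal.ofReal (∫ ζ, ‖g ζ‖ ^ 2) ≤ C * ∑ k ∈ Ks 2 s⁻¹,
        ∫⁻ z, ‖TP β (ctr s⁻¹ k) s⁻¹ G z‖ₑ ^ 2 * ENNReal.ofReal (wt N (s⁻¹ • z - x)) := by
  obtain ⟨hPU, -, C₁, hC₁, -, hcount, hctr⟩ := hPUS 2
  obtain ⟨-, hdec⟩ := hSCH 2 Ξ hΞ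
  obtain ⟨C₂, hC₂, hdecN⟩ := hdec N
  set D' : ℝ := max 1 C₁ with hD'
  have hD'1 : 1 ≤ D' := le_max_left _ _
  have hC₁D' : C₁ ≤ D' := le_max_right _ _
  obtain ⟨C₃, hL⟩ := hLO 2 N ⌈C₁ * (1 + 2 * D') ^ 2⌉₊ D' (by omega) hD'1
  refine ⟨(C₂ ^ 2).toNNReal * C₃, ?_⟩
  intro s x G g hs hG hg hsup hgF
  have hs0 : 0 < s := by linarith
  have hsi : 0 < s⁻¹ := inv_pos.2 hs0
  have hsi1 : s⁻¹ ≤ 1 := inv_le_one_of_one_le₀ hs
  have hTCk : ∀ k : Fin 2 → ℤ, TC (fun ζ => cp β (ctr s⁻¹ k) s⁻¹ ζ * G ζ) := fun k =>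
    hCPS 2 β _ _ G hβ.1 hsi hG fun ζ h => (hsup ζ h).1
  -- the function is the sum of its pieces
  have hsum : ∀ z, TF G z = ∑ k ∈ Ks 2 s⁻¹, TF (fun ζ => cp β (ctr s⁻¹ k) s⁻¹ ζ * G ζ) z := by
    intro z
    rw [← TF_sum' _ _ (fun k _ => hTCk k)]
    congr 1
    ext ζ
    rw [← Finset.sum_mul]
    by_cases h : G ζ = 0
    · rw [h, mul_zero]
    · rw [(hPU β s⁻¹ hβ hsi).2 hsi1 ζ (hsup ζ h).2.2, one_mul]
  have hbeta : ∀ (k : Fin 2 → ℤ) (ζ : Z 2), cp β (ctr s⁻¹ k) s⁻¹ ζ * G ζ ≠ 0 →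
      ‖ζ.1⁻¹ • ζ.2.1 - ctr s⁻¹ k‖ ≤ s⁻¹ := by
    intro k ζ h
    have h1 := left_ne_zero_of_mul h
    by_contra h2
    refine h1 (hβ.2.1 _ ?_)
    rw [norm_smul, inv_inv, Real.norm_eq_abs, abs_of_pos hs0]
    rw [← inv_mul_le_iff₀ hs0, mul_one]
    exact (not_le.1 h2).le
  have hLO' := hL (Fin 2 → ℤ) (Ks 2 s⁻¹) (fun k ζ => cp β (ctr s⁻¹ k) s⁻¹ ζ * G ζ)
    (fun k => ctr s⁻¹ k) s⁻¹ 1 s 0 x hsi one_pos hs
    (by rw [mul_assoc, mul_inv_cancel₀ hs0.ne', mul_one]; exact hD'1)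
    (by
      intro k hk
      rw [sub_zero, mul_assoc, mul_inv_cancel₀ hs0.ne', mul_one]
      exact (hctr s⁻¹ k hsi hsi1 hk).trans hC₁D')
    (fun k _ => hTCk k)
    (by
      intro k _ ζ h
      obtain ⟨h1, h2, -⟩ := hsup ζ (right_ne_zero_of_mul h)
      refine ⟨h1, h2, (hbeta k ζ h).trans ?_⟩
      nlinarith)
    (by
      intro y J _ hJ
      have h1 := hcount s⁻¹ (2 * D' * s⁻¹) y J hsi (by positivity) (by
        intro k hk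
        rw [norm_sub_rev]
        exact hJ k hk)
      have h2 : 2 * D' * s⁻¹ / s⁻¹ = 2 * D' := by
        field_simp
      rw [h2] at h1
      exact_mod_cast h1.trans (Nat.le_ceil _))
  have hLo : ∀ z : Z 2, Lo 0 1 z = z := fun z => ((hLOA 2).2.2.2.2.1 z).1
  simp only [hLo] at hLO'
  have h1 : ENNReal.ofReal (∫ ζ, ‖g ζ‖ ^ 2) ≤ ENNReal.ofReal (C₂ ^ 2) *
      ∫⁻ z, ‖TF G z‖ₑ ^ 2 * ENNReal.ofReal (wt N (s⁻¹ • z - x)) := by
    rw [← (hPLN 2 g hg).1, ← lintegral_const_mul' _ _ ENNReal.ofReal_ne_top]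
    apply lintegral_mono
    intro z
    simp only
    rw [hgF z, enorm_mul, mul_pow, enorm_sq (TF Ξ (s⁻¹ • z - x))]
    have h2 : ‖TF Ξ (s⁻¹ • z - x)‖ ^ 2 ≤ C₂ ^ 2 * wt N (s⁻¹ • z - x) := by
      have h3 := hdecN (s⁻¹ • z - x)
      have h4 := wt_pos N (s⁻¹ • z - x)
      have h5 := wt_le_one N (s⁻¹ • z - x)
      calc ‖TF Ξ (s⁻¹ • z - x)‖ ^ 2 ≤ (C₂ * wt N (s⁻¹ • z - x)) ^ 2 :=
            pow_le_pow_left₀ (norm_nonneg _) h3 2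
        _ = C₂ ^ 2 * (wt N (s⁻¹ • z - x) * wt N (s⁻¹ • z - x)) := by ring
        _ ≤ C₂ ^ 2 * (wt N (s⁻¹ • z - x) * 1) := by gcongr
        _ = C₂ ^ 2 * wt N (s⁻¹ • z - x) := by ring
    calc ‖TF G z‖ₑ ^ 2 * ENNReal.ofReal (‖TF Ξ (s⁻¹ • z - x)‖ ^ 2)
        ≤ ‖TF G z‖ₑ ^ 2 * ENNReal.ofReal (C₂ ^ 2 * wt N (s⁻¹ • z - x)) := by
          gcongr
      _ = ENNReal.ofReal (C₂ ^ 2) * (‖TF G z‖ₑ ^ 2 * ENNReal.ofReal (wt N (s⁻¹ • z - x))) := by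
          rw [ENNReal.ofReal_mul (by positivity)]
          ring
  refine h1.trans ?_
  rw [ENNReal.coe_mul, mul_assoc]
  have h6 : ((C₂ ^ 2).toNNReal : ℝ≥0∞) = ENNReal.ofReal (C₂ ^ 2) := rfl
  rw [h6]
  gcongr
  simp only [hsum]
  exact hLO'

/-- points in a cube of side `s/3` -/
theorem cube_bound (hCBN : T_CBN) (s : ℝ) (hs : 0 < s) (z : Z 2) :
    ‖z - (s / 3) • zc (cb (s / 3) z)‖ ≤ s := by
  have h := (hCBN 2).1 (s / 3) z (by positivity)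
  have e1 : ((2 : ℕ) : ℝ) + 1 = 3 := by norm_num
  rw [e1] at h
  linarith

/-! ### the estimate -/

theorem pf_FLA (hLO : T_LO) (hMOD : T_MOD) (hPUS : T_PUS) (hLWX : T_LWX) (hSCH : T_SCH)
    (hPLN : T_PLN) (hCPS : T_CPS) (hLOA : T_LOA) (hCBN : T_CBN) : T_FLA2 := by
  classical
  obtain ⟨Ξ, χ, hΞ, hΞs, hχ, hχ0, hχ1⟩ := hLWX 2
  refine ⟨1, le_rfl, ?_⟩
  intro D N β hD hN hβ
  obtain ⟨C₁, hE⟩ := energy hLO hPUS hCPS hPLN hSCH hLOA N β hN hβ Ξ hΞ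
  set A : ℝ := max 1 ((C₁ : ℝ) * 2 ^ N) with hAdef
  have hA1 : 1 ≤ A := le_max_left _ _
  have hA0 : 0 ≤ A := by linarith
  have hA4 : 1 ≤ A ^ 4 := one_le_pow₀ hA1
  refine ⟨81 * A ^ 4, by linarith, ?_⟩
  intro κ κ' σ s B H c G z₀ Y hκ hκ' hκκ hσ hσ1 hC hB hc hFL hH hG hsup hSep hY hYH
  have hκσ : 0 < κ' * σ := mul_pos hκ' hσ
  have hs1 : 1 ≤ s * (κ' * σ) := by linarith
  have hs0 : 0 < s := by
    by_contra hneg
    have : s * (κ' * σ) ≤ 0 := mul_nonpos_of_nonpos_of_nonneg (not_lt.1 hneg) hκσ.le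
    linarith
  have hκ'4 : κ' ≤ 1 / 4 := by linarith
  have hs80 : 1 ≤ s := by
    by_contra hneg
    have h1 : κ' * σ ≤ 1 := by nlinarith
    have : s * (κ' * σ) ≤ s * 1 := mul_le_mul_of_nonneg_left h1 hs0.le
    linarith [not_le.1 hneg]
  have hs3 : 0 < s / 3 := by positivity
  have hsi : 0 < s⁻¹ := inv_pos.2 hs0
  have hLo : ∀ z : Z 2, Lo 0 1 z = z ∧ Ld 0 1 z = z := fun z => (hLOA 2).2.2.2.2.1 z
  -- centres of the cubes, localized functions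
  set xj : Zi 2 → Z 2 := fun j => (s / 3) • zc j with hxj
  have hg := fun (i : Fin 4) (j : Zi 2) =>
    hMOD 2 (G i) Ξ 0 1 s⁻¹ (s⁻¹ • xj j) (hG i) hΞ one_pos hsi
  choose g hgTC hgF hgs using hg
  simp only [hLo] at hgF hgs
  -- the energies
  set Φ : Fin 4 → Z 2 → ℝ≥0∞ := fun i z => ∑ k ∈ Ks 2 s⁻¹,
    ∫⁻ z', ‖TP β (ctr s⁻¹ k) s⁻¹ (G i) z'‖ₑ ^ 2 * ENNReal.ofReal (wt N (s⁻¹ • (z - z')))
    with hΦ
  have hcube : ∀ z j, z ∈ Qj (s / 3) j → ‖s⁻¹ • z - s⁻¹ • xj j‖ ≤ 1 := by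
    intro z j hz
    have hz' : cb (s / 3) z = j := hz
    have h := cube_bound hCBN s hs0 z
    rw [hz'] at h
    rw [← smul_sub, norm_smul, Real.norm_eq_abs, abs_of_pos hsi, inv_mul_le_iff₀ hs0, mul_one]
    exact h
  have hηn : ∀ i ζ, G i ζ ≠ 0 → 1 / 4 ≤ ζ.1 ∧ ζ.1 ≤ 8 ∧ ‖ζ.1⁻¹ • ζ.2.1‖ ≤ 3 / 2 := by
    intro i ζ h
    obtain ⟨h1, h2, h3, -⟩ := hsup i ζ h
    refine ⟨by linarith, by linarith, ?_⟩
    have e1 : ζ.1⁻¹ • ζ.2.1 = (ζ.1⁻¹ • ζ.2.1 - c i) + c i := by abel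
    rw [e1]
    refine (norm_add_le _ _).trans ?_
    have h4 : (1 + κ) * σ ≤ 5 / 4 * (1 / 20) := by
      apply mul_le_mul _ hσ1 hσ.le (by norm_num)
      linarith
    have := hc i
    linarith
  have henergy : ∀ i j z, z ∈ Qj (s / 3) j →
      ENNReal.ofReal (∫ ζ, ‖g i j ζ‖ ^ 2) ≤ ENNReal.ofReal A * Φ i z := by
    intro i j z hz
    refine (hE s (s⁻¹ • xj j) (G i) (g i j) hs80 (hG i) (hgTC i j) (hηn i) (hgF i j)).trans ?_
    have h1 : ∑ k ∈ Ks 2 s⁻¹, ∫⁻ z', ‖TP β (ctr s⁻¹ k) s⁻¹ (G i) z'‖ₑ ^ 2 *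
        ENNReal.ofReal (wt N (s⁻¹ • z' - s⁻¹ • xj j)) ≤ ENNReal.ofReal (2 ^ N) * Φ i z := by
      rw [hΦ, Finset.mul_sum]
      apply Finset.sum_le_sum
      intro k _
      rw [← lintegral_const_mul' _ _ ENNReal.ofReal_ne_top]
      apply lintegral_mono
      intro z'
      simp only
      have h2 := wt_shift N s (s⁻¹ • xj j) z z' (hcube z j hz)
      calc ‖TP β (ctr s⁻¹ k) s⁻¹ (G i) z'‖ₑ ^ 2 *
          ENNReal.ofReal (wt N (s⁻¹ • z' - s⁻¹ • xj j))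
          ≤ ‖TP β (ctr s⁻¹ k) s⁻¹ (G i) z'‖ₑ ^ 2 *
          ENNReal.ofReal (2 ^ N * wt N (s⁻¹ • (z - z'))) := by gcongr
        _ = ENNReal.ofReal (2 ^ N) * (‖TP β (ctr s⁻¹ k) s⁻¹ (G i) z'‖ₑ ^ 2 *
          ENNReal.ofReal (wt N (s⁻¹ • (z - z')))) := by
            rw [ENNReal.ofReal_mul (by positivity)]
            ring
    calc (C₁ : ℝ≥0∞) * ∑ k ∈ Ks 2 s⁻¹, ∫⁻ z', ‖TP β (ctr s⁻¹ k) s⁻¹ (G i) z'‖ₑ ^ 2 *
        ENNReal.ofReal (wt N (s⁻¹ • z' - s⁻¹ • xj j))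
        ≤ (C₁ : ℝ≥0∞) * (ENNReal.ofReal (2 ^ N) * Φ i z) := by gcongr
      _ = ENNReal.ofReal ((C₁ : ℝ) * 2 ^ N) * Φ i z := by
          rw [ENNReal.ofReal_mul (NNReal.coe_nonneg _), ENNReal.ofReal_coe_nnreal, mul_assoc]
      _ ≤ ENNReal.ofReal A * Φ i z := by
          gcongr
          exact le_max_right _ _
  -- the estimate in a cube
  set w : ℝ := s⁻¹ * (H ^ 2)⁻¹ with hw
  have hw0 : 0 ≤ w := by positivity
  set F : Z 2 → ℝ≥0∞ := fun z => ∏ i, (ENNReal.ofReal w * Φ i z) ^ (1 / 3 : ℝ) with hF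
  have hloc : ∀ j z, z ∈ Qj (s / 3) j →
      ENNReal.ofReal ((Y.filter fun y => cb (s / 3) y = j).card : ℝ) ≤
        ENNReal.ofReal (B * A ^ 4) * F z := by
    intro j z hz
    have h := hFL H (fun i => g i j) (xj j) (Y.filter fun y => cb (s / 3) y = j) hH
      (fun i => hgTC i j) (by
        intro i ζ hζ
        obtain ⟨ζ₁, ζ₂, h1, h2, rfl⟩ := hgs i j ζ hζ
        obtain ⟨h3, h4, h5, h6⟩ := hsup i ζ₁ h1
        exact drift D κ κ' σ s (c i) ζ₁ ζ₂ hD hκ hκ' hκκ hσ hσ1 hs0 hs1 (hc i) h3 h4 h5 h6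
          (hΞs ζ₂ h2))
      (by
        intro y hy y' hy' hne
        exact hSep y (Finset.mem_filter.1 hy).1 y' (Finset.mem_filter.1 hy').1 hne)
      (by
        intro y hy
        have h1 := cube_bound hCBN s hs0 y
        rw [(Finset.mem_filter.1 hy).2] at h1
        exact h1)
      (by
        intro y hy i
        rw [hgF, ← hχ, norm_mul, Complex.norm_real, Real.norm_eq_abs, abs_of_nonneg (hχ0 _)]
        have h1 := hcube y j (Finset.mem_filter.1 hy).2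
        have h2 : 1 ≤ χ (s⁻¹ • y - s⁻¹ • xj j) := by
          apply hχ1
          push_cast
          linarith
        have h3 := hYH y (Finset.mem_filter.1 hy).1 i
        nlinarith [norm_nonneg (TF (G i) y)])
    have h0 : ∀ i, 0 ≤ ∫ ζ, ‖g i j ζ‖ ^ 2 := fun i => integral_nonneg fun ζ => by positivity
    have hX0 : ∀ i, 0 ≤ s⁻¹ * (∫ ζ, ‖g i j ζ‖ ^ 2) / H ^ 2 := by
      intro i
      have := h0 i
      positivity
    calc ENNReal.ofReal ((Y.filter fun y => cb (s / 3) y = j).card : ℝ)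
        ≤ ENNReal.ofReal (B * ∏ i, (s⁻¹ * (∫ ζ, ‖g i j ζ‖ ^ 2) / H ^ 2) ^ (1 / 3 : ℝ)) :=
          ENNReal.ofReal_le_ofReal h
      _ = ENNReal.ofReal B *
          ∏ i, (ENNReal.ofReal w * ENNReal.ofReal (∫ ζ, ‖g i j ζ‖ ^ 2)) ^ (1 / 3 : ℝ) := by
          rw [ENNReal.ofReal_mul hB, ENNReal.ofReal_prod_of_nonneg
            (fun i _ => Real.rpow_nonneg (hX0 i) _)]
          congr 1
          apply Finset.prod_congr rfl
          intro i _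
          rw [← ENNReal.ofReal_mul hw0, ENNReal.ofReal_rpow_of_nonneg
            (mul_nonneg hw0 (h0 i)) (by norm_num)]
          congr 2
          rw [hw]
          field_simp
      _ ≤ ENNReal.ofReal B *
          ∏ i, (ENNReal.ofReal A * (ENNReal.ofReal w * Φ i z)) ^ (1 / 3 : ℝ) := by
          refine mul_le_mul' le_rfl (Finset.prod_le_prod' fun i _ =>
            ENNReal.rpow_le_rpow ?_ (by norm_num))
          calc ENNReal.ofReal w * ENNReal.ofReal (∫ ζ, ‖g i j ζ‖ ^ 2)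
              ≤ ENNReal.ofReal w * (ENNReal.ofReal A * Φ i z) := by
                gcongr
                exact henergy i j z hz
            _ = ENNReal.ofReal A * (ENNReal.ofReal w * Φ i z) := by ring
      _ = ENNReal.ofReal B * ((∏ _i : Fin 4, ENNReal.ofReal A ^ (1 / 3 : ℝ)) * F z) := by
          rw [hF, ← Finset.prod_mul_distrib]
          congr 1
          apply Finset.prod_congr rfl
          intro i _
          rw [ENNReal.mul_rpow_of_nonneg _ _ (by norm_num : (0 : ℝ) ≤ 1 / 3)]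
      _ ≤ ENNReal.ofReal B * (ENNReal.ofReal (A ^ 4) * F z) := by
          gcongr
          have h1 : ENNReal.ofReal A ^ (1 / 3 : ℝ) ≤ ENNReal.ofReal A := by
            have h2 : (1 : ℝ≥0∞) ≤ ENNReal.ofReal A := by
              rw [← ENNReal.ofReal_one]
              exact ENNReal.ofReal_le_ofReal hA1
            calc ENNReal.ofReal A ^ (1 / 3 : ℝ) ≤ ENNReal.ofReal A ^ (1 : ℝ) :=
                  ENNReal.rpow_le_rpow_of_exponent_le h2 (by norm_num)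
              _ = ENNReal.ofReal A := ENNReal.rpow_one _
          calc ∏ _i : Fin 4, ENNReal.ofReal A ^ (1 / 3 : ℝ)
              ≤ ∏ _i : Fin 4, ENNReal.ofReal A := by
                gcongr
            _ = ENNReal.ofReal (A ^ 4) := by
                rw [Finset.prod_const, Finset.card_univ, Fintype.card_fin,
                  ENNReal.ofReal_pow hA0]
      _ = ENNReal.ofReal (B * A ^ 4) * F z := by
          rw [ENNReal.ofReal_mul hB, mul_assoc]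
  -- sum over the cubes
  have hint : ∀ j, ENNReal.ofReal ((s / 3) ^ 4) *
      ENNReal.ofReal ((Y.filter fun y => cb (s / 3) y = j).card : ℝ) ≤
        ENNReal.ofReal (B * A ^ 4) * ∫⁻ z in Qj (s / 3) j, F z := by
    intro j
    rw [← lintegral_const_mul' _ _ ENNReal.ofReal_ne_top, ← vol_Qj (s / 3) hs3 j, mul_comm,
      ← setLIntegral_const]
    exact setLIntegral_mono' (meas_Qj _ hs3 j) fun z hz => hloc j z hz
  set J : Finset (Zi 2) := Y.image (cb (s / 3)) with hJ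
  have hdisj : Set.PairwiseDisjoint (J : Set (Zi 2)) (Qj (s / 3)) := by
    intro j _ j' _ hne
    rw [Function.onFun, Set.disjoint_left]
    intro z hz hz'
    exact hne ((show cb (s / 3) z = j from hz).symm.trans hz')
  have hunion : ∑ j ∈ J, ∫⁻ z in Qj (s / 3) j, F z ≤
      ∫⁻ z in {z | ‖z - z₀‖ ≤ 4 * s ^ 2}, F z := by
    rw [← lintegral_biUnion_finset hdisj (fun j _ => meas_Qj _ hs3 j)]
    apply lintegral_mono_set
    intro z hz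
    simp only [Set.mem_iUnion] at hz
    obtain ⟨j, hj, hz⟩ := hz
    obtain ⟨y, hy, rfl⟩ := Finset.mem_image.1 hj
    have hz' : cb (s / 3) z = cb (s / 3) y := hz
    have h1 := cube_bound hCBN s hs0 z
    have h2 := cube_bound hCBN s hs0 y
    rw [hz'] at h1
    have h3 := hY y hy
    have e1 : z - z₀ = (z - (s / 3) • zc (cb (s / 3) y)) - (y - (s / 3) • zc (cb (s / 3) y)) +
      (y - z₀) := by abel
    show ‖z - z₀‖ ≤ 4 * s ^ 2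
    rw [e1]
    refine (norm_add_le _ _).trans ((add_le_add (norm_sub_le _ _) le_rfl).trans ?_)
    nlinarith
  have hcard : ENNReal.ofReal ((s / 3) ^ 4) * ENNReal.ofReal (Y.card : ℝ) ≤
      ENNReal.ofReal (B * A ^ 4) * ∫⁻ z in {z | ‖z - z₀‖ ≤ 4 * s ^ 2}, F z := by
    have h1 : (Y.card : ℝ) = ∑ j ∈ J, ((Y.filter fun y => cb (s / 3) y = j).card : ℝ) := by
      rw [Finset.card_eq_sum_card_image (cb (s / 3)) Y]
      push_cast
      rfl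
    rw [h1, ENNReal.ofReal_sum_of_nonneg (fun j _ => Nat.cast_nonneg _), Finset.mul_sum]
    calc ∑ j ∈ J, ENNReal.ofReal ((s / 3) ^ 4) *
          ENNReal.ofReal ((Y.filter fun y => cb (s / 3) y = j).card : ℝ)
        ≤ ∑ j ∈ J, ENNReal.ofReal (B * A ^ 4) * ∫⁻ z in Qj (s / 3) j, F z :=
          Finset.sum_le_sum fun j _ => hint j
      _ = ENNReal.ofReal (B * A ^ 4) * ∑ j ∈ J, ∫⁻ z in Qj (s / 3) j, F z := by
          rw [Finset.mul_sum]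
      _ ≤ _ := by gcongr
  have hconst : ENNReal.ofReal (81 * (s ^ 4)⁻¹) * ENNReal.ofReal ((s / 3) ^ 4) = 1 := by
    rw [← ENNReal.ofReal_mul (by positivity)]
    have : 81 * (s ^ 4)⁻¹ * (s / 3) ^ 4 = 1 := by
      field_simp
      norm_num
    rw [this, ENNReal.ofReal_one]
  calc ENNReal.ofReal (Y.card : ℝ)
      = ENNReal.ofReal (81 * (s ^ 4)⁻¹) *
        (ENNReal.ofReal ((s / 3) ^ 4) * ENNReal.ofReal (Y.card : ℝ)) := by
        rw [← mul_assoc, hconst, one_mul]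
    _ ≤ ENNReal.ofReal (81 * (s ^ 4)⁻¹) * (ENNReal.ofReal (B * A ^ 4) *
        ∫⁻ z in {z | ‖z - z₀‖ ≤ 4 * s ^ 2}, F z) := by gcongr
    _ = ENNReal.ofReal (81 * A ^ 4 * B * (s ^ 4)⁻¹) *
        ∫⁻ z in {z | ‖z - z₀‖ ≤ 4 * s ^ 2}, F z := by
        rw [← mul_assoc, ← ENNReal.ofReal_mul (by positivity)]
        congr 2
        ring

end Pool.Agent.H51.FP
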